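import Mathlib

set_option autoImplicit false

namespace Pool.Agent.Results.MP_24384b_lc.Differ

open Relation

/-- A deterministic one-way multicounter machine. `δ q s z` is the move in state `q` scanning `s`
(`none` = past the last input symbol) with zero pattern `z`: new state, whether the head
advances, and the change of every counter. -/
structure Mach (A : Type) where
  Q : Type
  fin : Finite Q
  k : ℕ
  q0 : Q
  F : Set Q
  δ : Q → Option A → (Fin k → Bool) → Option (Q × Bool × (Fin k → SignType))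

variable {A : Type}

/-- State, counters, last nonzero direction of each counter, reversals so far. -/
structure Core (M : Mach A) where
  q : M.Q
  v : Fin M.k → ℕ
  dir : Fin M.k → SignType
  rev : ℕ

def Tr (M : Mach A) (s : Option A) (x : Core M) (mv : Bool) (y : Core M) : Prop :=
  ∃ u, M.δ x.q s (fun i => decide (x.v i = 0)) = some (y.q, mv, u) ∧
    (∀ i, (y.v i : ℤ) = x.v i + u i) ∧ (∀ i, y.dir i = if u i = 0 then x.dir i else u i) ∧
    y.rev = x.rev + (Finset.univ.filter fun i => x.dir i * u i = -1).card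

def Step (M : Mach A) (x y : Core M × List A) : Prop :=
  ∃ mv, Tr M x.2.head? x.1 mv y.1 ∧ y.2 = if mv then x.2.tail else x.2

def init (M : Mach A) : Core M := ⟨M.q0, 0, 0, 0⟩

/-- `n` consecutive steps from `x` with the head on the same cell. -/
inductive Stay (M : Mach A) : ℕ → Core M × List A → Prop
  | zero (x) : Stay M 0 x
  | succ {n x y} : Step M x y → y.2 = x.2 → Stay M n y → Stay M (n + 1) x

def QR (M : Mach A) : Prop :=
  ∃ d, ∀ w x n, ReflTransGen (Step M) (init M, w) x → Stay M n x → n ≤ d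

def Blind (M : Mach A) : Prop := ∀ q s z z', M.δ q s z = M.δ q s z'

def LR (M : Mach A) (c : ℕ) : Set (List A) :=
  {w | ∃ y, ReflTransGen (Step M) (init M, w) (y, []) ∧ y.q ∈ M.F ∧ y.v = 0 ∧ y.rev ≤ c}

variable {M : Mach A}

inductive Rd (M : Mach A) : List A → Core M → Core M → Prop
  | nil (x) : Rd M [] x x
  | go {a u x y z} : Tr M (some a) x true y → Rd M u y z → Rd M (a :: u) x z
  | st {a u x y z} : Tr M (some a) x false y → Rd M (a :: u) y z → Rd M (a :: u) x z

lemma split {y : Core M} {x : Core M × List A} (h : ReflTransGen (Step M) x (y, [])) :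
    ∀ u t, x.2 = u ++ t → ∃ z, Rd M u x.1 z ∧ ReflTransGen (Step M) (z, t) (y, []) := by
  induction h using ReflTransGen.head_induction_on with
  | refl =>
    intro u t e
    obtain ⟨rfl, rfl⟩ := List.append_eq_nil_iff.1 e.symm
    exact ⟨y, .nil _, .refl⟩
  | @head x x' s r ih =>
    intro u t e
    cases u with
    | nil =>
      obtain ⟨x, w⟩ := x
      cases e
      exact ⟨x, .nil _, r.head s⟩
    | cons a u =>
      obtain ⟨mv, s1, s2⟩ := s
      rw [e] at s1 s2
      cases mv
      · obtain ⟨z, a, b⟩ := ih (a :: u) t s2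
        exact ⟨z, .st s1 a, b⟩
      · obtain ⟨z, a, b⟩ := ih u t s2
        exact ⟨z, .go s1 a, b⟩

lemma Rd.reach {u : List A} {x z : Core M} (h : Rd M u x z) (t : List A) :
    ReflTransGen (Step M) (x, u ++ t) (z, t) := by
  induction h with
  | nil => exact .refl
  | go s _ ih => exact ReflTransGen.head (b := (_, _)) ⟨true, s, rfl⟩ ih
  | st s _ ih => exact ReflTransGen.head (b := (_, _)) ⟨false, s, rfl⟩ ih

lemma trdet (hb : Blind M) {s : Option A} {x y x' y' : Core M} {mv mv' : Bool}
    (h : Tr M s x mv y) (h' : Tr M s x' mv' y') (e : x.q = x'.q) :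
    mv = mv' ∧ y.q = y'.q ∧ ∀ i, (y.v i : ℤ) - x.v i = y'.v i - x'.v i := by
  obtain ⟨u, a, b, -⟩ := h
  obtain ⟨u', a', b', -⟩ := h'
  rw [e, hb _ _ _ _, a'] at a
  simp only [Option.some.injEq, Prod.mk.injEq] at a
  obtain ⟨a1, a2, rfl⟩ := a
  exact ⟨a2.symm, a1.symm, fun i => by rw [b, b']; ring⟩

lemma Rd.det (hb : Blind M) {u : List A} {x z : Core M} (h : Rd M u x z) :
    ∀ x' z', Rd M u x' z' → x.q = x'.q →
      z.q = z'.q ∧ ∀ i, (z.v i : ℤ) - x.v i = z'.v i - x'.v i := by
  induction h with
  | nil => intro x' z' h e; cases h; simp [e]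
  | go s _ ih =>
    intro x' z' h e
    cases h with
    | go s' r =>
      obtain ⟨-, a, b⟩ := trdet hb s s' e
      obtain ⟨c, d⟩ := ih _ _ r a
      exact ⟨c, fun i => by have := b i; have := d i; omega⟩
    | st s' r => cases (trdet hb s s' e).1
  | st s _ ih =>
    intro x' z' h e
    cases h with
    | go s' r => cases (trdet hb s s' e).1
    | st s' r =>
      obtain ⟨-, a, b⟩ := trdet hb s s' e
      obtain ⟨c, d⟩ := ih _ _ r a
      exact ⟨c, fun i => by have := b i; have := d i; omega⟩

lemma mono {x y : Core M × List A} (h : ReflTransGen (Step M) x y) : x.1.rev ≤ y.1.rev := by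
  induction h with
  | refl => exact le_rfl
  | tail _ s ih => obtain ⟨_, ⟨_, -, -, -, e⟩, -⟩ := s; omega

lemma stay {x y : Core M × List A} (h : ReflTransGen (Step M) x y) :
    x.2 = [] → ∃ n, Stay M n x ∧ ∀ i, x.1.v i ≤ y.1.v i + n := by
  induction h using ReflTransGen.head_induction_on with
  | refl => exact fun _ => ⟨0, .zero _, by simp⟩
  | @head x x' s r ih =>
    intro e
    have e' : x'.2 = x.2 := by
      obtain ⟨mv, -, s⟩ := s
      rw [s, e]
      simp
    obtain ⟨n, a, b⟩ := ih (e'.trans e)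
    refine ⟨n + 1, .succ s e' a, fun i => ?_⟩
    obtain ⟨_, ⟨u, -, c, -⟩, -⟩ := s
    have := b i
    have := c i
    have : (-1 : ℤ) ≤ u i := by cases u i <;> simp
    omega

def L : Set (List Bool) := {w | ∃ n m, n ≤ m ∧ w = List.replicate n true ++ List.replicate m false}

lemma neg (B : Mach Bool) (hb : Blind B) (hq : QR B) (c : ℕ) : LR B c ≠ L := by
  intro hL
  obtain ⟨d, hd⟩ := hq
  have := B.fin
  have key : ∀ n m, n ≤ m → ∃ z y z', Rd B (List.replicate n true) (init B) z ∧
      ReflTransGen (Step B) (z, List.replicate m false) (y, []) ∧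
      (y.q ∈ B.F ∧ y.v = 0 ∧ y.rev ≤ c) ∧ Rd B (List.replicate m false) z z' ∧
      ∀ i, z'.v i ≤ d := by
    intro n m h
    obtain ⟨y, r, e⟩ : List.replicate n true ++ List.replicate m false ∈ LR B c := by
      rw [hL]; exact ⟨n, m, h, rfl⟩
    obtain ⟨z, a, b⟩ := split r _ _ rfl
    obtain ⟨z', a', b'⟩ := split b _ [] (List.append_nil _).symm
    obtain ⟨k, s, t⟩ := stay b' rfl
    have := hd _ _ k ((a.reach _).trans (a'.reach [])) s
    exact ⟨z, y, z', a, b, e, a', fun i => by have := t i; simp [e.2.1] at this; omega⟩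
  choose z y z' h1 h2 h3 h4 h5 using fun n => key n n le_rfl
  have main : ∀ n n', n < n' → (z n).q = (z n').q → (z n).dir = (z n').dir →
      (z n).rev = (z n').rev → (∀ i, (z n).v i % (d + 1) = (z n').v i % (d + 1)) → False := by
    intro n n' h e1 e2 e3 e4
    obtain ⟨x, -, x', a, -, -, b, f⟩ := key n n' h.le
    obtain ⟨c1, c2⟩ := a.det hb _ _ (h1 n) rfl
    obtain ⟨-, c3⟩ := b.det hb _ _ (h4 n') (c1.trans e1)
    have ev : (z n).v = (z n').v := funext fun i => by
      have := c2 i
      have := c3 i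
      have := f i
      have := h5 n' i
      refine Nat.ModEq.eq_of_abs_lt (e4 i) (abs_lt.2 ⟨?_, ?_⟩) <;> push_cast <;> omega
    have : z n = z n' := by
      cases hh : z n
      cases hh' : z n'
      simp only [hh, hh'] at e1 e2 e3 ev
      rw [e1, e2, e3, ev]
    have m : List.replicate n' true ++ List.replicate n false ∈ LR B c :=
      ⟨y n, ((h1 n').reach _).trans (this ▸ h2 n), h3 n⟩
    rw [hL] at m
    obtain ⟨p, q, a, e⟩ := m
    have a1 := congrArg (List.count true) e
    have a2 := congrArg (List.count false) e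
    simp [List.count_replicate] at a1 a2
    omega
  obtain ⟨n, n', ne, e⟩ := Finite.exists_ne_map_eq_of_infinite fun n =>
    (((z n).q, (z n).dir, ⟨(z n).rev, by have := mono (h2 n); have := (h3 n).2.2; simp at *; omega⟩,
      fun i => ⟨(z n).v i % (d + 1), Nat.mod_lt _ (by omega)⟩) :
        B.Q × (Fin B.k → SignType) × Fin (c + 1) × (Fin B.k → Fin (d + 1)))
  simp only [Prod.mk.injEq, Fin.mk.injEq, funext_iff] at e
  rcases lt_or_gt_of_ne ne with h | h
  · exact main _ _ h e.1 (funext e.2.1) e.2.2.1 e.2.2.2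
  · exact main _ _ h e.1.symm (funext e.2.1).symm e.2.2.1.symm fun i => (e.2.2.2 i).symm

abbrev G : Mach Bool where
  Q := Bool
  fin := inferInstance
  k := 1
  q0 := false
  F := Set.univ
  δ q s z := match s with
    | none => none
    | some true => if q then none else some (false, true, fun _ => 1)
    | some false => some (true, true, fun _ => if z (0 : Fin 1) then 0 else -1)

lemma inv {w : List Bool} {x : Core G × List Bool} (h : ReflTransGen (Step G) (init G, w) x) :
    ∃ n m, w = List.replicate n true ++ List.replicate m false ++ x.2 ∧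
      x.1.v (0 : Fin 1) = n - m ∧ (x.1.q = false → m = 0) := by
  induction h with
  | refl => exact ⟨0, 0, rfl, rfl, fun _ => rfl⟩
  | @tail x y _ s ih =>
    obtain ⟨n, m, e, a, b⟩ := ih
    obtain ⟨x, t⟩ := x
    obtain ⟨mv, ⟨u, s1, s2, -⟩, s3⟩ := s
    have s2 := s2 (0 : Fin 1)
    rcases t with _ | ⟨_ | _, t⟩
    · cases s1
    · simp only [G, List.head?_cons, Option.some.injEq, Prod.mk.injEq] at s1
      obtain ⟨q, rfl, rfl⟩ := s1
      refine ⟨n, m + 1, by simp [e, s3, List.replicate_succ'], ?_, fun h => by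
        rw [← q] at h; cases h⟩
      dsimp only at a s2
      by_cases c : x.v (0 : Fin 1) = 0 <;> simp [c] at s2 <;> omega
    · simp only [G, List.head?_cons] at s1
      split_ifs at s1 with c
      simp only [Option.some.injEq, Prod.mk.injEq] at s1
      obtain ⟨q, rfl, rfl⟩ := s1
      obtain rfl := b (by simpa using c)
      refine ⟨n + 1, 0, by simp [e, s3, List.replicate_succ'], ?_, fun _ => rfl⟩
      dsimp only at a s2
      simp at s2
      omega

lemma up (t : List Bool) : ∀ (n : ℕ) (x : Core G), x.q = false → x.dir (0 : Fin 1) ≠ -1 →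
    ∃ y : Core G, ReflTransGen (Step G) (x, List.replicate n true ++ t) (y, t) ∧
      y.v (0 : Fin 1) = x.v (0 : Fin 1) + n ∧ y.rev = x.rev := by
  intro n
  induction n with
  | zero => exact fun x _ _ => ⟨x, .refl, rfl, rfl⟩
  | succ n ih =>
    intro x a b
    obtain ⟨y, r, c, d⟩ := ih ⟨false, fun i => x.v i + 1, fun _ => 1, x.rev⟩ rfl (by simp)
    refine ⟨y, r.head ⟨true, ⟨fun _ => 1, by simp [G, a, List.replicate_succ], by simp, by simp,
      ?_⟩, rfl⟩, by simp at c; omega, d⟩
    have : ∀ i : Fin G.k, x.dir i ≠ -1 := fun i => by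
      rwa [Subsingleton.elim (α := Fin 1) i 0]
    simp [this]

lemma down : ∀ (m : ℕ) (x : Core G), x.v (0 : Fin 1) ≤ m →
    ∃ y : Core G, ReflTransGen (Step G) (x, List.replicate m false) (y, []) ∧
      y.v (0 : Fin 1) = 0 ∧ y.rev ≤ x.rev + if x.dir (0 : Fin 1) = 1 then 1 else 0 := by
  intro m
  induction m with
  | zero => exact fun x h => ⟨x, .refl, by omega, by omega⟩
  | succ m ih =>
    intro x h
    have sb : ∀ i : Fin G.k, i = (0 : Fin 1) := fun i => Subsingleton.elim (α := Fin 1) i 0
    by_cases c : x.v (0 : Fin 1) = 0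
    · obtain ⟨y, r, a, b⟩ := ih ⟨true, x.v, x.dir, x.rev⟩ (by simp [c])
      exact ⟨y, r.head ⟨true, ⟨fun _ => 0, by simp [G, c, List.replicate_succ], by simp, by simp,
        by simp⟩, rfl⟩, a, b⟩
    · obtain ⟨y, r, a, b⟩ := ih ⟨true, fun i => x.v i - 1, fun _ => -1,
        x.rev + if x.dir (0 : Fin 1) = 1 then 1 else 0⟩ (by simp; omega)
      refine ⟨y, r.head ⟨true, ⟨fun _ => -1, by simp [G, c, List.replicate_succ], fun i => ?_,
        by simp, ?_⟩, rfl⟩, a, by simpa using b⟩
      · rw [sb i]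
        simp
        omega
      · have : (Finset.univ : Finset (Fin G.k)) = {(0 : Fin 1)} := by
          ext i; simp [sb i]
        rw [this, Finset.filter_singleton]
        dsimp only
        cases x.dir (0 : Fin 1) <;> simp

lemma pos (c : ℕ) (hc : 1 ≤ c) : LR G c = L := by
  ext w
  constructor
  · rintro ⟨y, r, -, e, -⟩
    obtain ⟨n, m, a, b, -⟩ := inv r
    have b : 0 = n - m := by rw [← b, e]; rfl
    exact ⟨n, m, by omega, by simpa using a⟩
  · rintro ⟨n, m, h, rfl⟩
    obtain ⟨y, r, a, b⟩ := up (List.replicate m false) n (init G) rfl (by simp [init])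
    have a : y.v (0 : Fin 1) = 0 + n := a
    have b : y.rev = 0 := b
    obtain ⟨z, r', a', b'⟩ := down m y (by omega)
    refine ⟨z, r.trans r', trivial, funext fun i => ?_, by split_ifs at b' <;> omega⟩
    rwa [Subsingleton.elim (α := Fin 1) i 0]

theorem result (c : ℕ) (hc : 1 ≤ c) : ∃ M : Mach Bool, QR M ∧ (∀ q z, M.δ q none z = none) ∧
    ∀ B : Mach Bool, Blind B → QR B → LR B c ≠ LR M c := by
  refine ⟨G, ⟨0, fun w x n _ s => ?_⟩, fun _ _ => rfl, fun B a b => pos c hc ▸ neg B a b c⟩
  cases s with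
  | zero => exact le_rfl
  | succ s e _ =>
    exfalso
    obtain ⟨x, t⟩ := x
    obtain ⟨mv, ⟨u, s1, -⟩, s3⟩ := s
    rw [e] at s3
    have s3 := congrArg List.length s3
    rcases t with _ | ⟨_ | _, t⟩
    · cases s1
    · simp only [G, List.head?_cons, Option.some.injEq, Prod.mk.injEq] at s1
      obtain ⟨-, rfl, -⟩ := s1
      simp at s3
    · simp only [G, List.head?_cons] at s1
      split_ifs at s1
      simp only [Option.some.injEq, Prod.mk.injEq] at s1
      obtain ⟨-, rfl, -⟩ := s1
      simp at s3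

end Pool.Agent.Results.MP_24384b_lc.Differ
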